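import Mathlib
import Pool.Agent.Q10.SU.Core

set_option autoImplicit false

/-! # MP_9fd87c_al: the system u-invariants satisfy `u_r(K) ≤ 4 r u'_r(K)` -/

namespace Pool.Agent.Results.MP_9fd87c_al.UInvariantBound

open Module

universe u

/-- `q` vanishes identically on a subspace of at least half the dimension -/
def Metabolic {K V N : Type u} [Field K] [AddCommGroup V] [Module K V] [AddCommGroup N]
    [Module K N] (q : QuadraticMap K V N) : Prop :=
  ∃ U : Submodule K V, (∀ x ∈ U, q x = 0) ∧ finrank K V ≤ 2 * finrank K U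

/-- the orthogonal sum of `m` copies of `q` -/
def copies {K V N : Type u} [Field K] [AddCommGroup V] [Module K V] [AddCommGroup N]
    [Module K N] (m : ℕ) (q : QuadraticMap K V N) : QuadraticMap K (Fin m → V) N :=
  QuadraticMap.pi fun _ => q

/-- the supremum of the dimensions of the anisotropic quadratic maps `K ^ n → K ^ r` with a
metabolic multiple -/
noncomputable def uInv (K : Type u) [Field K] (r : ℕ) : ℕ∞ :=
  ⨆ n ∈ {n : ℕ | ∃ q : QuadraticMap K (Fin n → K) (Fin r → K), q.Anisotropic ∧
    ∃ m : ℕ, 1 ≤ m ∧ Metabolic (copies m q)}, (n : ℕ∞)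

/-- the supremum of the dimensions of the anisotropic quadratic maps `q : K ^ n → K ^ r` with
`2 × q` metabolic -/
noncomputable def uInv' (K : Type u) [Field K] (r : ℕ) : ℕ∞ :=
  ⨆ n ∈ {n : ℕ | ∃ q : QuadraticMap K (Fin n → K) (Fin r → K), q.Anisotropic ∧
    Metabolic (copies 2 q)}, (n : ℕ∞)

lemma copies_apply {K V N : Type u} [Field K] [AddCommGroup V] [Module K V] [AddCommGroup N]
    [Module K N] (m : ℕ) (q : QuadraticMap K V N) (x : Fin m → V) :
    copies m q x = ∑ i, q (x i) :=
  QuadraticMap.pi_apply _ _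

lemma good_le {K : Type u} [Field K] {r t : ℕ}
    (ht : ∀ n : ℕ, (∃ q : QuadraticMap K (Fin n → K) (Fin r → K), q.Anisotropic ∧
      Metabolic (copies 2 q)) → n ≤ t)
    (V : Type u) [AddCommGroup V] [Module K V] [FiniteDimensional K V]
    (q : QuadraticMap K V (Fin r → K)) (hq : q.Anisotropic) (B : Submodule K V)
    (hB : Pool.Agent.Q10.SU.Good q B) : finrank K B ≤ t := by
  obtain ⟨G, hG1, hG2, hG3⟩ := hB
  obtain ⟨e, -⟩ : ∃ e : (Fin (finrank K B) → K) ≃ₗ[K] B, e = (Module.finBasis K B).equivFun.symm :=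
    ⟨_, rfl⟩
  apply ht
  refine ⟨q.comp (B.subtype.comp e.toLinearMap), ?_, ?_⟩
  · intro x hx
    rw [QuadraticMap.comp_apply] at hx
    have h1 := hq _ hx
    have h2 : e x = 0 := Subtype.ext h1
    exact e.map_eq_zero_iff.1 h2
  · obtain ⟨Θ, hΘ⟩ : ∃ Θ : (Fin 2 → Fin (finrank K B) → K) →ₗ[K] V × V,
        ∀ x, Θ x = ((e (x 0) : V), (e (x 1) : V)) := by
      refine ⟨((B.subtype.comp e.toLinearMap).comp (LinearMap.proj 0)).prod
        ((B.subtype.comp e.toLinearMap).comp (LinearMap.proj 1)), fun x => rfl⟩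
    refine ⟨G.comap Θ, ?_, ?_⟩
    · intro x hx
      have h1 := hG2 _ (Submodule.mem_comap.1 hx)
      rw [hΘ] at h1
      rw [copies_apply, Fin.sum_univ_two]
      exact h1
    · have h1 : (G.comap Θ).map Θ = G := by
        rw [Submodule.map_comap_eq, inf_eq_right]
        rintro ⟨x, y⟩ hxy
        have h2 := hG1 hxy
        rw [Submodule.mem_prod] at h2
        refine ⟨![e.symm ⟨x, h2.1⟩, e.symm ⟨y, h2.2⟩], ?_⟩
        rw [hΘ]
        simp
      have h2 := Submodule.finrank_map_le Θ (G.comap Θ)
      rw [h1] at h2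
      have h3 : finrank K (Fin 2 → Fin (finrank K B) → K) = 2 * finrank K B := by
        rw [Module.finrank_pi_fintype]
        simp
      rw [h3]
      omega

theorem result (K : Type u) [Field K] (r : ℕ) (hr : 1 ≤ r) :
    uInv K r ≤ 4 * r * uInv' K r ∧ (uInv' K r ≠ ⊤ → uInv K r ≠ ⊤) := by
  have main : uInv K r ≤ 4 * r * uInv' K r := by
    by_cases htop : uInv' K r = ⊤
    · rw [htop]
      have h4 : (4 * r : ℕ∞) ≠ 0 := by
        have : (4 * r : ℕ) ≠ 0 := by omega
        exact_mod_cast this
      rw [ENat.mul_top h4]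
      exact le_top
    obtain ⟨t, ht⟩ := ENat.ne_top_iff_exists.1 htop
    have ht' : ∀ n : ℕ, (∃ q : QuadraticMap K (Fin n → K) (Fin r → K), q.Anisotropic ∧
        Metabolic (copies 2 q)) → n ≤ t := by
      intro n hn
      have h1 : (n : ℕ∞) ≤ uInv' K r := le_iSup₂_of_le n hn le_rfl
      rw [← ht] at h1
      exact_mod_cast h1
    rw [← ht]
    refine iSup₂_le ?_
    rintro n ⟨q, hq, m, hm, U, hU1, hU2⟩
    have hgoal : n ≤ 4 * (r * t) := by
      by_cases hsq : ∃ a : K, a * a = -1
      · obtain ⟨a, ha⟩ := hsq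
        have h1 : n ≤ t := by
          refine ht' n ⟨q, hq, ?_⟩
          obtain ⟨f, hf⟩ : ∃ f : (Fin n → K) →ₗ[K] (Fin 2 → Fin n → K),
              ∀ x, f x = ![x, a • x] := by
            refine ⟨LinearMap.pi ![LinearMap.id, a • LinearMap.id], fun x => ?_⟩
            funext i
            fin_cases i <;> rfl
          refine ⟨LinearMap.range f, ?_, ?_⟩
          · rintro x ⟨x, rfl⟩
            rw [copies_apply, Fin.sum_univ_two, hf]
            simp only [Matrix.cons_val_zero, Matrix.cons_val_one]
            rw [QuadraticMap.map_smul, ha, neg_smul, one_smul, add_neg_cancel]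
          · have hinj : Function.Injective f := by
              intro x y hxy
              rw [hf, hf] at hxy
              exact congrFun hxy 0
            rw [LinearMap.finrank_range_of_inj hinj, Module.finrank_pi_fintype]
            simp
        nlinarith
      · push Not at hsq
        have h2 := Pool.Agent.Q10.SU.dim_bound hsq (r := r) (t := t)
          (fun V _ _ _ q hq B hB => good_le ht' V q hq B hB) (Fin n → K) q hq m hm U
          (fun x hx => by rw [← copies_apply]; exact hU1 x hx) (by
            rw [Module.finrank_pi_fintype] at hU2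
            simpa using hU2)
        rwa [Module.finrank_fin_fun] at h2
    have h3 : (n : ℕ∞) ≤ ((4 * (r * t) : ℕ) : ℕ∞) := by exact_mod_cast hgoal
    refine h3.trans (le_of_eq ?_)
    push_cast
    ring
  refine ⟨main, fun h => ?_⟩
  obtain ⟨t, ht⟩ := ENat.ne_top_iff_exists.1 h
  rw [← ht] at main
  intro htop
  rw [htop, top_le_iff] at main
  have : ((4 * r * t : ℕ) : ℕ∞) = ⊤ := by
    push_cast
    exact main
  exact ENat.coe_ne_top _ this

end Pool.Agent.Results.MP_9fd87c_al.UInvariantBound
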